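import Mathlib
import Pool.Agent.X153.CH.Main

/-!
# MP_0f948c_co: the `h`-polynomial of `Δ(L(U_{n,r}))` and the Chow polynomials of `U_{n,j}`

`h(Δ(L(U_{n,r})), t) = t² ∑_{j=1}^r C(n-j-1, r-j) H(A(U_{n,j}), t)` for all `1 ≤ r < n`, where the
Hilbert series `H(A(U_{n,j}), t)` of the Chow ring is given by the formula of Feichtner and
Yuzvinsky: the sum over all chains `F_1 ⊂ ⋯ ⊂ F_k` of nonempty flats of
`∏_i (t + t² + ⋯ + t^(rk F_i - rk F_{i-1} - 1))`.

Everything is stated with the literal chains of flats: `flats n r` is the set of flats of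
`U_{n,r}`, `chains` are the faces of the order complex, `hPoly` is the `h`-polynomial of a complex
given by its set of faces, and `chowSeries n j` is the above sum over chains.

Idea: both sides are sums over chains of nonempty sets with fewer than `r` (resp. `j`) elements.
With `a_i` (resp. `b_i`) the total weight of the chains of subsets ending in a fixed `i`-set, for
the weights `t + ⋯ + t^(d-1)` (resp. `(t-1)^(d-1)`) of a gap `d`, one has
`b_i = ∑_l C(i, l) a_l`, and the identity reduces to
`∑_{i<R} C(N, i) (t-1)^(R-1-i) = ∑_{j<R} C(N-j-2, R-j-1) (1 + t + ⋯ + t^j)` for `R < N`.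
-/

namespace Pool.Agent.Results.MP_0f948c_co.ChainIdentity

open Polynomial Finset Pool.Agent.X153.CH

theorem result (n r : ℕ) (hr : 1 ≤ r) (hn : r < n) :
    hPoly (chains (flats n r))
      = X ^ 2 * ∑ j ∈ Icc 1 r, ((n - j - 1).choose (r - j) : ℤ[X]) * chowSeries n j :=
  main n r hr hn

end Pool.Agent.Results.MP_0f948c_co.ChainIdentity
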